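import Mathlib
import Pool.Agent.Q100.SL.Stm

set_option autoImplicit false

open Finset Q100.SL

namespace Pool.Agent.Q40.SL

theorem ones_not {m : ℕ} (u : Fin m → Bool) : ones (fun i => !(u i)) = m - ones u := by
  unfold ones
  have h := Finset.card_filter_add_card_filter_not (s := (univ : Finset (Fin m)))
    (fun i => u i = true)
  rw [Finset.card_univ, Fintype.card_fin] at h
  have h2 : (univ.filter fun i => (!(u i)) = true) = univ.filter fun i => ¬ (u i = true) := by
    refine Finset.filter_congr fun i _ => ?_
    simp
  rw [h2]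
  omega

theorem ones_le {m : ℕ} (u : Fin m → Bool) : ones u ≤ m := by
  unfold ones
  refine (Finset.card_le_univ _).trans (le_of_eq (Fintype.card_fin m))

theorem dd_eq (b o₁ o₂ u : Bool) :
    dd b b o₁ o₂ u = if o₁ = !b ∧ o₂ = !b then !u else b := by
  revert b o₁ o₂ u
  decide

/-- the total mass is one -/
theorem mass_true (h : S_count) (m : ℕ) (a : ℝ) : ∑ u : Fin m → Bool, ∏ i, sg a true (u i) = 1 := by
  have h1 := h m a (fun _ => 1)
  simp only [mul_one] at h1
  rw [h1]
  have h2 := add_pow a (1 - a) m
  rw [show a + (1 - a) = 1 by ring, one_pow] at h2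
  refine Eq.trans ?_ h2.symm
  refine Finset.sum_congr rfl fun j _ => ?_
  ring

theorem maj_true (h : S_count) (m : ℕ) (a : ℝ) :
    ∑ u : Fin m → Bool, (∏ i, sg a true (u i)) * (if m < 2 * ones u then 1 else 0) = maj m a := by
  rw [h m a (fun j => if m < 2 * j then 1 else 0)]
  unfold maj
  rw [Finset.sum_filter]
  refine Finset.sum_congr rfl fun j _ => ?_
  split_ifs <;> ring

theorem flip_sum {m : ℕ} (a : ℝ) (F : ℕ → ℝ) :
    ∑ u : Fin m → Bool, (∏ i, sg a false (u i)) * F (ones u) =
      ∑ u : Fin m → Bool, (∏ i, sg a true (u i)) * F (m - ones u) := by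
  refine Finset.sum_bij' (fun u _ => fun i => !(u i)) (fun u _ => fun i => !(u i))
    (fun _ _ => Finset.mem_univ _) (fun _ _ => Finset.mem_univ _) ?_ ?_ ?_
  · intro u _
    ext i
    simp
  · intro u _
    ext i
    simp
  · intro u _
    rw [ones_not]
    have h1 := ones_le u
    congr 1
    · refine Finset.prod_congr rfl fun i _ => ?_
      unfold sg
      cases hui : u i <;> simp [hui]
    · congr 1
      omega

/-- mass of the `u` whose majority is `b` -/
theorem maj_mass (h : S_count) {m : ℕ} (hm : Odd m) (a : ℝ) (θ b : Bool) :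
    ∑ u : Fin m → Bool, (∏ i, sg a θ (u i)) * (if decide (m < 2 * ones u) = b then 1 else 0) =
      if θ = b then maj m a else 1 - maj m a := by
  obtain ⟨t, ht⟩ := hm
  have key : ∀ b : Bool, ∑ u : Fin m → Bool, (∏ i, sg a true (u i)) *
      (if decide (m < 2 * ones u) = b then 1 else 0) = if b = true then maj m a else 1 - maj m a := by
    intro b
    cases b
    · rw [if_neg (by decide)]
      have h1 := mass_true h m a
      have h2 := maj_true h m a
      refine Eq.trans ?_ (congrArg₂ (fun x y : ℝ => x - y) h1 h2)
      rw [← Finset.sum_sub_distrib]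
      refine Finset.sum_congr rfl fun u _ => ?_
      by_cases hu : m < 2 * ones u
      · simp [hu]
      · simp [hu]
    · rw [if_pos rfl, ← maj_true h m a]
      refine Finset.sum_congr rfl fun u _ => ?_
      by_cases hu : m < 2 * ones u
      · simp [hu]
      · simp [hu]
  cases θ
  · have h1 := flip_sum (m := m) a (fun j => if decide (m < 2 * j) = b then 1 else 0)
    rw [h1]
    have h2 : ∀ u : Fin m → Bool, (decide (m < 2 * (m - ones u)) = b) ↔
        (decide (m < 2 * ones u) = !b) := by
      intro u
      have h3 := ones_le u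
      by_cases hu : m < 2 * ones u
      · have : ¬ m < 2 * (m - ones u) := by omega
        simp only [hu, this, decide_true, decide_false]
        cases b <;> simp
      · have : m < 2 * (m - ones u) := by omega
        simp only [hu, this, decide_true, decide_false]
        cases b <;> simp
    simp only [h2]
    rw [key]
    cases b <;> simp
  · rw [key]
    cases b <;> simp

theorem kappa (h : S_count) : S_kappa := by
  intro R a m hm θ b
  have hm' := hm
  obtain ⟨t, ht⟩ := hm'
  have hmass : ∑ u : Fin m → Bool, ∏ i, sg a θ (u i) = 1 := by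
    have h1 := maj_mass h hm a θ true
    have h2 := maj_mass h hm a θ false
    have h3 : ∑ u : Fin m → Bool, ∏ i, sg a θ (u i) =
        ∑ u : Fin m → Bool, (∏ i, sg a θ (u i)) * (if decide (m < 2 * ones u) = true then 1 else 0) +
        ∑ u : Fin m → Bool, (∏ i, sg a θ (u i)) *
          (if decide (m < 2 * ones u) = false then 1 else 0) := by
      rw [← Finset.sum_add_distrib]
      refine Finset.sum_congr rfl fun u _ => ?_
      by_cases hu : m < 2 * ones u
      · simp [hu]
      · simp [hu]
    rw [h3, h1, h2]
    cases θ <;> simp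
  have hgg : ∀ o₁ o₂ (u : Fin m → Bool), (gg m b b (o₁, o₂, u) = b) ↔
      ¬ (o₁ = !b ∧ o₂ = !b) ∨ decide (m < 2 * ones u) ≠ b := by
    intro o₁ o₂ u
    unfold gg
    simp only [dd_eq]
    have h3 := ones_le u
    by_cases ho : o₁ = !b ∧ o₂ = !b
    · simp only [ho, and_self, if_true, not_true_eq_false, false_or, ones_not]
      by_cases hu : m < 2 * ones u
      · have : ¬ m < 2 * (m - ones u) := by omega
        simp only [hu, this, decide_true, decide_false]
        cases b <;> simp
      · have : m < 2 * (m - ones u) := by omega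
        simp only [hu, this, decide_true, decide_false]
        cases b <;> simp
    · simp only [ho, if_false, not_false_eq_true, true_or, iff_true]
      cases b
      · have : ones (fun _ : Fin m => false) = 0 := by simp [ones]
        rw [this]
        simp
      · have : ones (fun _ : Fin m => true) = m := by simp [ones]
        rw [this]
        have : m < 2 * m := by omega
        simp [this]
  have hsum : ∀ o₁ o₂, ∑ u : Fin m → Bool, (if gg m b b (o₁, o₂, u) = b then
      Wc R a m θ (o₁, o₂, u) else 0) = sg R θ o₁ * sg R θ o₂ *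
      (1 - if (o₁ = !b ∧ o₂ = !b) then (if θ = b then maj m a else 1 - maj m a) else 0) := by
    intro o₁ o₂
    simp only [hgg]
    unfold Wc
    by_cases ho : o₁ = !b ∧ o₂ = !b
    · simp only [ho, and_self, not_true_eq_false, false_or, if_true]
      rw [← maj_mass h hm a θ b]
      refine Eq.trans ?_ (congrArg (fun x : ℝ => sg R θ (!b) * sg R θ (!b) * (x -
        ∑ u : Fin m → Bool, (∏ i, sg a θ (u i)) *
          (if decide (m < 2 * ones u) = b then 1 else 0))) hmass)
      rw [← Finset.sum_sub_distrib, Finset.mul_sum]
      refine Finset.sum_congr rfl fun u _ => ?_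
      by_cases hu : decide (m < 2 * ones u) = b
      · simp [hu]
      · simp [hu]
    · simp only [ho, not_false_eq_true, true_or, if_true, if_false, sub_zero, mul_one]
      rw [← Finset.mul_sum, hmass, mul_one]
  rw [Fintype.sum_prod_type]
  simp only [Fintype.sum_prod_type, hsum, Fintype.sum_bool]
  unfold sg
  cases b <;> cases θ <;> simp <;> ring

end Pool.Agent.Q40.SL
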