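import Mathlib
import Pool.Agent.Q100.SL.Stm

set_option autoImplicit false

open Finset Q100.SL

namespace Pool.Agent.Q40.SL

/-- the map of the majority of three -/
noncomputable def fm (x : ℝ) : ℝ := 3 * x ^ 2 - 2 * x ^ 3

theorem fm_mono {x y : ℝ} (hx : 0 ≤ x) (hxy : x ≤ y) (hy : y ≤ 1) : fm x ≤ fm y := by
  unfold fm
  have h1 : 0 ≤ x * (1 - x) := mul_nonneg hx (by linarith)
  have h2 : 0 ≤ y * (1 - y) := mul_nonneg (by linarith) (by linarith)
  have h3 : 0 ≤ 3 * (x + y) - 2 * (x ^ 2 + x * y + y ^ 2) := by nlinarith [sq_nonneg (x - y)]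
  have h4 := mul_nonneg (sub_nonneg.2 hxy) h3
  nlinarith

theorem step {x l h : ℝ} (l' h' : ℝ) (hl : l ≤ x) (hh : x ≤ h) (hl0 : 0 ≤ l) (hh1 : h ≤ 1)
    (e1 : l' ≤ fm l) (e2 : fm h ≤ h') : l' ≤ fm x ∧ fm x ≤ h' :=
  ⟨e1.trans (fm_mono hl0 hl (hh.trans hh1)), (fm_mono (hl0.trans hl) hh hh1).trans e2⟩

theorem real_step (h2 : S_maj3) {x : ℝ} (hx : RlBit (51 / 100) x) (hl : 521 / 1000 ≤ x)
    (hh : x < 1) : RlBit (51 / 100) (fm x) :=
  h2 (51 / 100) (by norm_num) (by norm_num) x (by linarith) hh hx (by linarith)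

theorem maj15 (a : ℝ) : maj 15 a = 6435 * a ^ 8 * (1 - a) ^ 7 + 5005 * a ^ 9 * (1 - a) ^ 6 +
    3003 * a ^ 10 * (1 - a) ^ 5 + 1365 * a ^ 11 * (1 - a) ^ 4 + 455 * a ^ 12 * (1 - a) ^ 3 +
    105 * a ^ 13 * (1 - a) ^ 2 + 15 * a ^ 14 * (1 - a) + a ^ 15 := by
  unfold maj
  rw [Finset.sum_filter]
  simp only [Finset.sum_range_succ, Finset.sum_range_zero]
  norm_num [Nat.choose]

theorem num_aux {a R P : ℝ} (a1 : 60932256 / 100000000 ≤ a) (a2 : a ≤ 60932269 / 100000000)
    (r1 : 66137071 / 100000000 ≤ R) (r2 : R ≤ 66137091 / 100000000)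
    (p1 : 73365171 / 100000000 ≤ P) (p2 : P ≤ 73365199 / 100000000) :
    Par (51 / 100) P R a 15 ∧ 1 - (1 - R) ^ 2 * maj 15 a < 1 - R ^ 2 * (1 - maj 15 a) ∧
      (49 / 100) ^ 2 * (1 - R ^ 2 * (1 - maj 15 a)) <
        (51 / 100) ^ 2 * (1 - (1 - R) ^ 2 * maj 15 a) := by
  have a0 : 0 ≤ a := by linarith
  have a0' : 0 ≤ 1 - a := by linarith
  have r0 : 0 ≤ R := by linarith
  have r0' : 0 ≤ 1 - R := by linarith
  have p0 : 0 ≤ P := by linarith
  have p0' : 0 ≤ 1 - P := by linarith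
  have a3 : 1 - a ≤ 1 - 60932256 / 100000000 := by linarith
  have a4 : 1 - 60932269 / 100000000 ≤ 1 - a := by linarith
  have r3 : 1 - R ≤ 1 - 66137071 / 100000000 := by linarith
  have r4 : 1 - 66137091 / 100000000 ≤ 1 - R := by linarith
  have p3 : 1 - P ≤ 1 - 73365171 / 100000000 := by linarith
  have p4 : 1 - 73365199 / 100000000 ≤ 1 - P := by linarith
  -- squares
  have P2u : P ^ 2 ≤ (73365199 / 100000000) ^ 2 := pow_le_pow_left₀ p0 p2 2
  have P2l : (73365171 / 100000000) ^ 2 ≤ P ^ 2 := pow_le_pow_left₀ (by norm_num) p1 2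
  have Q2u : (1 - P) ^ 2 ≤ (1 - 73365171 / 100000000) ^ 2 := pow_le_pow_left₀ p0' p3 2
  have Q2l : (1 - 73365199 / 100000000) ^ 2 ≤ (1 - P) ^ 2 :=
    pow_le_pow_left₀ (by norm_num) p4 2
  have R2u : R ^ 2 ≤ (66137091 / 100000000) ^ 2 := pow_le_pow_left₀ r0 r2 2
  have R2l : (66137071 / 100000000) ^ 2 ≤ R ^ 2 := pow_le_pow_left₀ (by norm_num) r1 2
  have S2u : (1 - R) ^ 2 ≤ (1 - 66137071 / 100000000) ^ 2 := pow_le_pow_left₀ r0' r3 2
  have S2l : (1 - 66137091 / 100000000) ^ 2 ≤ (1 - R) ^ 2 :=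
    pow_le_pow_left₀ (by norm_num) r4 2
  have P20 : 0 ≤ P ^ 2 := sq_nonneg _
  have Q20 : 0 ≤ (1 - P) ^ 2 := sq_nonneg _
  have R20 : 0 ≤ R ^ 2 := sq_nonneg _
  have S20 : 0 ≤ (1 - R) ^ 2 := sq_nonneg _
  -- `g` and `D`
  have gu : 4 * P * (1 - P) * R * (1 - R) ≤ 4 * (73365199 / 100000000) *
      (1 - 73365171 / 100000000) * (66137091 / 100000000) * (1 - 66137071 / 100000000) := by
    gcongr
  have gl : 4 * (73365171 / 100000000) * (1 - 73365199 / 100000000) * (66137071 / 100000000) *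
      (1 - 66137091 / 100000000) ≤ 4 * P * (1 - P) * R * (1 - R) := by
    gcongr
  have Du : P ^ 2 * (1 - R) ^ 2 + (1 - P) ^ 2 * R ^ 2 ≤
      (73365199 / 100000000) ^ 2 * (1 - 66137071 / 100000000) ^ 2 +
        (1 - 73365171 / 100000000) ^ 2 * (66137091 / 100000000) ^ 2 := by
    gcongr
  have Dl : (73365171 / 100000000) ^ 2 * (1 - 66137091 / 100000000) ^ 2 +
        (1 - 73365199 / 100000000) ^ 2 * (66137071 / 100000000) ^ 2 ≤
      P ^ 2 * (1 - R) ^ 2 + (1 - P) ^ 2 * R ^ 2 := by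
    gcongr
  set g := 4 * P * (1 - P) * R * (1 - R) with hg
  set D := P ^ 2 * (1 - R) ^ 2 + (1 - P) ^ 2 * R ^ 2 with hD
  have g0 : 0 ≤ g := by positivity
  have D0 : 0 ≤ D := by positivity
  -- the majority of 15
  have Ml : 8082 / 10000 ≤ maj 15 a := by
    rw [maj15]
    calc (8082 / 10000 : ℝ) ≤ 6435 * (60932256 / 100000000) ^ 8 * (1 - 60932269 / 100000000) ^ 7 +
          5005 * (60932256 / 100000000) ^ 9 * (1 - 60932269 / 100000000) ^ 6 +
          3003 * (60932256 / 100000000) ^ 10 * (1 - 60932269 / 100000000) ^ 5 +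
          1365 * (60932256 / 100000000) ^ 11 * (1 - 60932269 / 100000000) ^ 4 +
          455 * (60932256 / 100000000) ^ 12 * (1 - 60932269 / 100000000) ^ 3 +
          105 * (60932256 / 100000000) ^ 13 * (1 - 60932269 / 100000000) ^ 2 +
          15 * (60932256 / 100000000) ^ 14 * (1 - 60932269 / 100000000) +
          (60932256 / 100000000) ^ 15 := by norm_num
      _ ≤ _ := by gcongr
  have Mu : maj 15 a ≤ 8084 / 10000 := by
    rw [maj15]
    calc _ ≤ 6435 * (60932269 / 100000000) ^ 8 * (1 - 60932256 / 100000000) ^ 7 +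
          5005 * (60932269 / 100000000) ^ 9 * (1 - 60932256 / 100000000) ^ 6 +
          3003 * (60932269 / 100000000) ^ 10 * (1 - 60932256 / 100000000) ^ 5 +
          1365 * (60932269 / 100000000) ^ 11 * (1 - 60932256 / 100000000) ^ 4 +
          455 * (60932269 / 100000000) ^ 12 * (1 - 60932256 / 100000000) ^ 3 +
          105 * (60932269 / 100000000) ^ 13 * (1 - 60932256 / 100000000) ^ 2 +
          15 * (60932269 / 100000000) ^ 14 * (1 - 60932256 / 100000000) +
          (60932269 / 100000000) ^ 15 := by gcongr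
      _ ≤ (8084 / 10000 : ℝ) := by norm_num
  refine ⟨⟨by norm_num, by norm_num, by linarith, by linarith, by linarith, by linarith,
    by linarith, by linarith, by decide, by linarith, ?_, ?_, ?_, ?_, ?_⟩, ?_, ?_⟩
  · -- c2
    have h1 : (1 - (1 - P) ^ 2) * a * (1 - R) ^ 2 ≤ (1 - (1 - 73365199 / 100000000) ^ 2) *
        (60932269 / 100000000) * (1 - 66137071 / 100000000) ^ 2 := by
      have : 0 ≤ 1 - (1 - P) ^ 2 := by nlinarith
      gcongr
    have h2 : (1 - (73365199 / 100000000) ^ 2) * (1 - 60932269 / 100000000) *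
        (66137071 / 100000000) ^ 2 ≤ (1 - P ^ 2) * (1 - a) * R ^ 2 := by
      have h5 : 0 ≤ 1 - P ^ 2 := by nlinarith
      exact mul_le_mul (mul_le_mul (by linarith) a4 (by norm_num) h5) R2l (by positivity)
        (mul_nonneg h5 a0')
    linarith
  · -- c3
    have h1 : (1 - P) ^ 2 * a * R ^ 2 ≤ (1 - 73365171 / 100000000) ^ 2 *
        (60932269 / 100000000) * (66137091 / 100000000) ^ 2 := by
      gcongr
    have h2 : (73365171 / 100000000) ^ 2 * (1 - 60932269 / 100000000) *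
        (1 - 66137091 / 100000000) ^ 2 ≤ P ^ 2 * (1 - a) * (1 - R) ^ 2 := by
      gcongr
    linarith
  · -- c4
    have h1 : g * (1 - a) ≤ (4 * (73365199 / 100000000) *
      (1 - 73365171 / 100000000) * (66137091 / 100000000) * (1 - 66137071 / 100000000)) *
      (1 - 60932256 / 100000000) := mul_le_mul gu a3 a0' (by norm_num)
    have h2 : D * a ≤ ((73365199 / 100000000) ^ 2 * (1 - 66137071 / 100000000) ^ 2 +
        (1 - 73365171 / 100000000) ^ 2 * (66137091 / 100000000) ^ 2) * (60932269 / 100000000) :=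
      mul_le_mul Du a2 a0 (by norm_num)
    have h3 : (4 * (73365171 / 100000000) * (1 - 73365199 / 100000000) *
      (66137071 / 100000000) * (1 - 66137091 / 100000000)) * (60932256 / 100000000) ≤ g * a :=
      mul_le_mul gl a1 (by norm_num) g0
    have h4 : ((73365171 / 100000000) ^ 2 * (1 - 66137091 / 100000000) ^ 2 +
        (1 - 73365199 / 100000000) ^ 2 * (66137071 / 100000000) ^ 2) *
        (1 - 60932269 / 100000000) ≤ D * (1 - a) :=
      mul_le_mul Dl a4 (by norm_num) D0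
    linarith
  · -- c4'
    linarith
  · -- c5
    have h1 : (1 - P) ^ 2 * (1 - R ^ 2) ≤ (1 - 73365171 / 100000000) ^ 2 *
        (1 - (66137071 / 100000000) ^ 2) := by
      have : 0 ≤ 1 - R ^ 2 := by nlinarith
      gcongr
    have h2 : 2 * P * (1 - P) * (1 - R) ^ 2 ≤ 2 * (73365199 / 100000000) *
        (1 - 73365171 / 100000000) * (1 - 66137071 / 100000000) ^ 2 := by
      gcongr
    have h3 : (73365171 / 100000000) ^ 2 * (1 - (1 - 66137071 / 100000000) ^ 2) ≤
        P ^ 2 * (1 - (1 - R) ^ 2) := by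
      gcongr
    have h4 : 0 ≤ 2 * P * (1 - P) * R ^ 2 := by positivity
    linarith
  · -- κ₁ < κ₀
    have h1 : R ^ 2 * (1 - maj 15 a) ≤ (66137091 / 100000000) ^ 2 * (1 - 8082 / 10000) := by
      have : 0 ≤ 1 - maj 15 a := by linarith
      gcongr
    have h2 : (1 - 66137091 / 100000000) ^ 2 * (8082 / 10000) ≤ (1 - R) ^ 2 * maj 15 a := by
      gcongr
    linarith
  · have h1 : (66137071 / 100000000) ^ 2 * (1 - 8084 / 10000) ≤ R ^ 2 * (1 - maj 15 a) := by
      gcongr
    have h2 : (1 - R) ^ 2 * maj 15 a ≤ (1 - 66137071 / 100000000) ^ 2 * (8084 / 10000) := by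
      have : 0 ≤ maj 15 a := by linarith
      gcongr
    linarith

theorem num (h0 : S_scout) (h1 : S_maj7) (h2 : S_maj3) : S_num := by
  have e0 : maj 7 (51 / 100) = 2609331260499 / 5000000000000 := by
    unfold maj
    rw [Finset.sum_filter]
    simp only [Finset.sum_range_succ, Finset.sum_range_zero]
    norm_num [Nat.choose]
  set x0 : ℝ := maj 7 (51 / 100) with hx0
  have x0l : (52186625 / 100000000 : ℝ) ≤ x0 := by rw [e0]; norm_num
  have x0h : x0 ≤ (52186626 / 100000000 : ℝ) := by rw [e0]; norm_num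
  have b0 : RlBit (51 / 100) x0 := h1 _ (by norm_num) (by norm_num)
  obtain ⟨x1l, x1h⟩ := step (53277846 / 100000000) (53277849 / 100000000) x0l x0h (by norm_num)
    (by norm_num) (by norm_num [fm]) (by norm_num [fm])
  have b1 := real_step h2 b0 (by linarith) (by linarith)
  obtain ⟨x2l, x2h⟩ := step (54909725 / 100000000) (54909730 / 100000000) x1l x1h (by norm_num)
    (by norm_num) (by norm_num [fm]) (by norm_num [fm])
  have b2 := real_step h2 b1 (by linarith) (by linarith)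
  obtain ⟨x3l, x3h⟩ := step (57340917 / 100000000) (57340925 / 100000000) x2l x2h (by norm_num)
    (by norm_num) (by norm_num [fm]) (by norm_num [fm])
  have b3 := real_step h2 b2 (by linarith) (by linarith)
  obtain ⟨x4l, x4h⟩ := step (60932256 / 100000000) (60932269 / 100000000) x3l x3h (by norm_num)
    (by norm_num) (by norm_num [fm]) (by norm_num [fm])
  have b4 := real_step h2 b3 (by linarith) (by linarith)
  obtain ⟨x5l, x5h⟩ := step (66137071 / 100000000) (66137091 / 100000000) x4l x4h (by norm_num)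
    (by norm_num) (by norm_num [fm]) (by norm_num [fm])
  have b5 := real_step h2 b4 (by linarith) (by linarith)
  obtain ⟨x6l, x6h⟩ := step (73365171 / 100000000) (73365199 / 100000000) x5l x5h (by norm_num)
    (by norm_num) (by norm_num [fm]) (by norm_num [fm])
  have b6 := real_step h2 b5 (by linarith) (by linarith)
  obtain ⟨q1, q2, q3⟩ := num_aux x4l x4h x5l x5h x6l x6h
  exact ⟨_, _, _, b6, b5, b4, q1, q2, q3⟩

end Pool.Agent.Q40.SL
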