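import Mathlib
import Pool.Agent.Q100.SL.Stm

set_option autoImplicit false

open Finset Q100.SL

namespace Pool.Agent.Q40.SL

theorem off1 : S_off1 := by
  intro p hp hp1 R R' K hR' h1 h2
  have hp0 : 0 < p := by linarith
  have hq0 : 0 < 1 - p := by linarith
  have hR : 0 < R := by
    by_contra h
    have h3 : (1 - p) * R ≤ 0 := mul_nonpos_of_nonneg_of_nonpos hq0.le (not_lt.1 h)
    have h4 : 0 < p * R' := mul_pos hp0 hR'
    linarith
  classical
  have hK : (1 - p) * (R * (1 - p) ^ K) < p * (R' * p ^ K) := by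
    have h3 : 0 < p ^ K * R' := by positivity
    calc (1 - p) * (R * (1 - p) ^ K) = (1 - p) * ((1 - p) ^ K * R) := by ring
      _ ≤ (1 - p) * (p ^ K * R') := mul_le_mul_of_nonneg_left h2 hq0.le
      _ < p * (p ^ K * R') := mul_lt_mul_of_pos_right (by linarith) h3
      _ = _ := by ring
  have hex : ∃ k, (1 - p) * (R * (1 - p) ^ k) < p * (R' * p ^ k) := ⟨K, hK⟩
  refine ⟨Nat.find hex, Nat.find_le hK, Nat.find_spec hex, ?_⟩
  rcases Nat.eq_zero_or_pos (Nat.find hex) with h0 | h0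
  · exfalso
    have h3 := Nat.find_spec hex
    rw [h0] at h3
    simp only [pow_zero, mul_one] at h3
    linarith
  · obtain ⟨j, hj⟩ := Nat.exists_eq_succ_of_ne_zero h0.ne'
    have h3 := Nat.find_min hex (m := j) (by omega)
    rw [not_lt] at h3
    rw [hj, Nat.succ_eq_add_one]
    have h4 : 0 < R * (1 - p) ^ (j + 1) := by positivity
    calc (1 - p) * (R' * p ^ (j + 1)) = (1 - p) * (p * (R' * p ^ j)) := by ring
      _ ≤ (1 - p) * ((1 - p) * (R * (1 - p) ^ j)) := mul_le_mul_of_nonneg_left h3 hq0.le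
      _ = (1 - p) * (R * (1 - p) ^ (j + 1)) := by ring
      _ < p * (R * (1 - p) ^ (j + 1)) := mul_lt_mul_of_pos_right (by linarith) h4

theorem off2 : S_off2 := by
  intro p hp hp1 α₁ α₀ κ₁ κ₀ hα0 hα hκ1 hκ hκκ K
  have hp0 : 0 < p := by linarith
  have hq0 : 0 < 1 - p := by linarith
  have hα1 : 0 < α₁ := by linarith
  have hκ0 : 0 < κ₀ := by linarith
  obtain ⟨T, hT⟩ := exists_pow_lt_of_lt_one
    (show 0 < p * α₀ * (1 - p) ^ K / ((1 - p) * α₁ * p ^ K) by positivity)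
    (show κ₁ / κ₀ < 1 from (div_lt_one hκ0).2 hκ)
  refine ⟨T, ?_⟩
  intro R R' hR' h1 h2
  have hR : 0 < R := by
    by_contra h
    have h3 : (1 - p) * R ≤ 0 := mul_nonpos_of_nonneg_of_nonpos hq0.le (not_lt.1 h)
    have h4 : 0 < p * R' := mul_pos hp0 hR'
    linarith
  classical
  have hK : (1 - p) * (R * (α₁ * κ₁ ^ T)) < p * (R' * (α₀ * κ₀ ^ T)) := by
    rw [div_pow, div_lt_div_iff₀ (by positivity) (by positivity)] at hT
    -- hT : κ₁ ^ T * ((1 - p) * α₁ * p ^ K) < p * α₀ * (1 - p) ^ K * κ₀ ^ T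
    have h3 : 0 < (1 - p) ^ K := by positivity
    refine lt_of_mul_lt_mul_left ?_ h3.le
    calc (1 - p) ^ K * ((1 - p) * (R * (α₁ * κ₁ ^ T))) =
        ((1 - p) * α₁ * κ₁ ^ T) * ((1 - p) ^ K * R) := by ring
      _ ≤ ((1 - p) * α₁ * κ₁ ^ T) * (p ^ K * R') :=
          mul_le_mul_of_nonneg_left h2 (by positivity)
      _ = (κ₁ ^ T * ((1 - p) * α₁ * p ^ K)) * R' := by ring
      _ < (p * α₀ * (1 - p) ^ K * κ₀ ^ T) * R' := mul_lt_mul_of_pos_right hT hR'
      _ = _ := by ring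
  have hex : ∃ k, (1 - p) * (R * (α₁ * κ₁ ^ k)) < p * (R' * (α₀ * κ₀ ^ k)) := ⟨T, hK⟩
  refine ⟨Nat.find hex, Nat.find_le hK, Nat.find_spec hex, ?_⟩
  rcases Nat.eq_zero_or_pos (Nat.find hex) with h0 | h0
  · exfalso
    have h3 := Nat.find_spec hex
    rw [h0] at h3
    simp only [pow_zero, mul_one] at h3
    have h4 : p * (R' * α₀) ≤ p * (R' * α₁) :=
      mul_le_mul_of_nonneg_left (mul_le_mul_of_nonneg_left hα hR'.le) hp0.le
    have h5 : p * R' * α₁ ≤ (1 - p) * R * α₁ := mul_le_mul_of_nonneg_right h1 hα1.le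
    linarith
  · obtain ⟨j, hj⟩ := Nat.exists_eq_succ_of_ne_zero h0.ne'
    have h3 := Nat.find_min hex (m := j) (by omega)
    rw [not_lt] at h3
    rw [hj, Nat.succ_eq_add_one]
    have h4 : 0 < R * (α₁ * κ₁ ^ j) := by positivity
    refine lt_of_mul_lt_mul_left ?_ hp0.le
    calc p * ((1 - p) * (R' * (α₀ * κ₀ ^ (j + 1)))) =
        ((1 - p) * κ₀) * (p * (R' * (α₀ * κ₀ ^ j))) := by ring
      _ ≤ ((1 - p) * κ₀) * ((1 - p) * (R * (α₁ * κ₁ ^ j))) :=
          mul_le_mul_of_nonneg_left h3 (by positivity)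
      _ = ((1 - p) ^ 2 * κ₀) * (R * (α₁ * κ₁ ^ j)) := by ring
      _ < (p ^ 2 * κ₁) * (R * (α₁ * κ₁ ^ j)) := mul_lt_mul_of_pos_right hκκ h4
      _ = _ := by ring

theorem off : S_off1 ∧ S_off2 := ⟨off1, off2⟩

end Pool.Agent.Q40.SL
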