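import Mathlib
import Pool.Agent.Q100.SL.Stm

set_option autoImplicit false

open Finset Q100.SL

namespace Pool.Agent.Q40.SL

theorem prod_sg {m : ℕ} (a : ℝ) (u : Fin m → Bool) :
    ∏ i, sg a true (u i) = a ^ ones u * (1 - a) ^ (m - ones u) := by
  unfold sg ones
  rw [Finset.prod_ite, Finset.prod_const, Finset.prod_const]
  congr 2
  have h := Finset.card_filter_add_card_filter_not (s := (univ : Finset (Fin m)))
    (fun i => u i = true)
  rw [Finset.card_univ, Fintype.card_fin] at h
  omega

theorem count : S_count := by
  intro m a F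
  have h1 : ∑ u : Fin m → Bool, (∏ i, sg a true (u i)) * F (ones u) =
      ∑ s ∈ (univ : Finset (Fin m)).powerset, a ^ s.card * (1 - a) ^ (m - s.card) * F s.card := by
    refine Finset.sum_bij' (fun u _ => univ.filter fun i => u i = true)
      (fun s _ => fun i => decide (i ∈ s)) ?_ ?_ ?_ ?_ ?_
    · intro u _
      simp
    · intro s _
      simp
    · intro u _
      ext i
      simp
    · intro s _
      ext i
      simp
    · intro u _
      rw [prod_sg]
      rfl
  rw [h1, Finset.sum_powerset_apply_card (fun j => a ^ j * (1 - a) ^ (m - j) * F j),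
    Finset.card_univ, Fintype.card_fin]
  refine Finset.sum_congr rfl fun j _ => ?_
  rw [nsmul_eq_mul]
  ring

end Pool.Agent.Q40.SL
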